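import Pool.Agent.W734.TWB.Stms

/-! Project TWB (helper734), part FORM. -/

set_option autoImplicit false

noncomputable section

namespace Pool.Agent.W557.TWB

open MeasureTheory Set Filter Metric Pool.Agent.W734.TWB
open scoped Topology Convolution ContDiff

theorem fderiv_ofReal (w : E3 → ℝ) (hw : Differentiable ℝ w) (x e : E3) :
    fderiv ℝ (fun y => (w y : ℂ)) x e = ((fderiv ℝ w x e : ℝ) : ℂ) := by
  have h : HasFDerivAt (fun y => (w y : ℂ)) (Complex.ofRealCLM.comp (fderiv ℝ w x)) x :=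
    (Complex.ofRealCLM.hasFDerivAt).comp x (hw x).hasFDerivAt
  rw [h.fderiv]
  rfl

theorem g3_ofReal (w : E3 → ℝ) (hw : Differentiable ℝ w) (x : E3) :
    g3 (fun y => (w y : ℂ)) x = dot3 w w x := by
  unfold g3 dot3
  refine Finset.sum_congr rfl fun k _ => ?_
  rw [fderiv_ofReal w hw, Complex.norm_real, Real.norm_eq_abs, sq_abs, sq]

theorem dot3_nonneg (w : E3 → ℝ) (x : E3) : 0 ≤ dot3 w w x :=
  Finset.sum_nonneg fun _ _ => mul_self_nonneg _

theorem dot3_cont (w : E3 → ℝ) (hw : ContDiff ℝ 1 w) : Continuous (dot3 w w) := by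
  unfold dot3
  refine continuous_finsetSum _ fun k _ => ?_
  have h := (hw.continuous_fderiv one_ne_zero).clm_apply
    (continuous_const (y := (EuclideanSpace.single k (1 : ℝ) : E3)))
  exact h.mul h

theorem dot3_le (w : E3 → ℝ) (x : E3) : dot3 w w x ≤ 3 * ‖fderiv ℝ w x‖ ^ 2 := by
  unfold dot3
  have : ∀ k : Fin 3, fderiv ℝ w x (EuclideanSpace.single k (1 : ℝ)) *
      fderiv ℝ w x (EuclideanSpace.single k (1 : ℝ)) ≤ ‖fderiv ℝ w x‖ ^ 2 := by
    intro k
    have h := (fderiv ℝ w x).le_opNorm (EuclideanSpace.single k (1 : ℝ))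
    rw [PiLp.norm_single, norm_one, mul_one, Real.norm_eq_abs] at h
    rw [← sq, ← sq_abs]
    exact pow_le_pow_left₀ (abs_nonneg _) h 2
  calc _ ≤ ∑ k : Fin 3, ‖fderiv ℝ w x‖ ^ 2 := Finset.sum_le_sum fun k _ => this k
    _ = 3 * ‖fderiv ℝ w x‖ ^ 2 := by simp

/-- passage to the limit -/
theorem limit (Q : E3 → ℝ) (hQm : Measurable Q) (hQ0 : ∀ x, 0 ≤ Q x) (M : ℝ)
    (hM : ∀ x, Q x ≤ M) (lam : ℝ) (vn : ℕ → E3 → ℝ) (v : E3 → ℝ)
    (hvn : ∀ n, ContDiff ℝ 1 (vn n))
    (hin : ∀ n, lam * (∫ x, vn n x ^ 2) ≤ ∫ x, (dot3 (vn n) (vn n) x + Q x * vn n x ^ 2))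
    (G : E3 → ℝ) (hG : Integrable G) (b1 : ∀ n x, vn n x ^ 2 ≤ G x)
    (b2 : ∀ n x, dot3 (vn n) (vn n) x ≤ G x)
    (c1 : ∀ x, Tendsto (fun n => vn n x) atTop (𝓝 (v x)))
    (c2 : ∀ x (k : Fin 3), Tendsto (fun n => fderiv ℝ (vn n) x (EuclideanSpace.single k (1 : ℝ)))
      atTop (𝓝 (fderiv ℝ v x (EuclideanSpace.single k (1 : ℝ))))) :
    lam * (∫ x, v x ^ 2) ≤ ∫ x, (dot3 v v x + Q x * v x ^ 2) := by
  have hM0 : 0 ≤ M := (hQ0 0).trans (hM 0)
  have t1 : Tendsto (fun n => ∫ x, vn n x ^ 2) atTop (𝓝 (∫ x, v x ^ 2)) := by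
    apply tendsto_integral_of_dominated_convergence G
    · intro n
      exact ((hvn n).continuous.pow 2).aestronglyMeasurable
    · exact hG
    · intro n
      filter_upwards with x
      rw [Real.norm_eq_abs, abs_of_nonneg (sq_nonneg _)]
      exact b1 n x
    · filter_upwards with x
      exact (c1 x).pow 2
  have t2 : Tendsto (fun n => ∫ x, (dot3 (vn n) (vn n) x + Q x * vn n x ^ 2)) atTop
      (𝓝 (∫ x, (dot3 v v x + Q x * v x ^ 2))) := by
    apply tendsto_integral_of_dominated_convergence (fun x => G x + M * G x)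
    · intro n
      exact (dot3_cont _ (hvn n)).aestronglyMeasurable.add
        (hQm.aestronglyMeasurable.mul ((hvn n).continuous.pow 2).aestronglyMeasurable)
    · exact hG.add (hG.const_mul M)
    · intro n
      filter_upwards with x
      rw [Real.norm_eq_abs, abs_of_nonneg (add_nonneg (dot3_nonneg _ _)
        (mul_nonneg (hQ0 x) (sq_nonneg _)))]
      exact add_le_add (b2 n x) (mul_le_mul (hM x) (b1 n x) (sq_nonneg _) hM0)
    · filter_upwards with x
      refine Tendsto.add ?_ ((c1 x).pow 2 |>.const_mul _)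
      unfold dot3
      exact tendsto_finsetSum _ fun k _ => (c2 x k).mul (c2 x k)
  exact le_of_tendsto_of_tendsto' (t1.const_mul lam) t2 hin

theorem zero_outside {F : Type} [NormedAddCommGroup F] (g : E3 → F) (hg : HasCompactSupport g) :
    ∃ R : ℝ, 0 ≤ R ∧ ∀ x, R < ‖x‖ → g x = 0 := by
  obtain ⟨R, hR⟩ := hg.isCompact.isBounded.subset_closedBall (0 : E3)
  refine ⟨max R 0, le_max_right _ _, fun x hx => ?_⟩
  by_contra h
  have h1 := hR (subset_tsupport _ h)
  rw [mem_closedBall, dist_zero_right] at h1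
  exact absurd (h1.trans (le_max_left _ _)) (not_le.2 hx)

/-- bounds for mollified functions -/
theorem mol {F : Type} [NormedAddCommGroup F] [NormedSpace ℝ F] [CompleteSpace F] (g : E3 → F)
    (hg : Continuous g) (φ : ContDiffBump (0 : E3)) (hφ : φ.rOut ≤ 1) (B R : ℝ)
    (hB : ∀ x, ‖g x‖ ≤ B) (hR : ∀ x, R < ‖x‖ → g x = 0) (x : E3) :
    ‖(φ.normed volume ⋆[ContinuousLinearMap.lsmul ℝ ℝ, volume] g) x‖ ≤
      (closedBall (0 : E3) (R + 1)).indicator (fun _ => 3 * B) x := by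
  by_cases hx : x ∈ closedBall (0 : E3) (R + 1)
  · rw [indicator_of_mem hx]
    have h := φ.dist_normed_convolution_le (μ := volume) (x₀ := x) (ε := 2 * B)
      hg.aestronglyMeasurable (fun y _ => by
        rw [dist_eq_norm]
        calc ‖g y - g x‖ ≤ ‖g y‖ + ‖g x‖ := norm_sub_le _ _
          _ ≤ 2 * B := by linarith [hB y, hB x])
    rw [dist_eq_norm] at h
    have h2 := norm_sub_norm_le ((φ.normed volume ⋆[ContinuousLinearMap.lsmul ℝ ℝ, volume] g) x)
      (g x)
    linarith [hB x]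
  · rw [indicator_of_notMem hx]
    rw [mem_closedBall, dist_zero_right, not_le] at hx
    have hgx : g x = 0 := hR x (by linarith)
    have h := φ.dist_normed_convolution_le (μ := volume) (x₀ := x) (ε := 0)
      hg.aestronglyMeasurable (fun y hy => by
        rw [mem_ball, dist_eq_norm] at hy
        have h1 : ‖x‖ - ‖y‖ ≤ ‖y - x‖ := by
          rw [← norm_neg (y - x), neg_sub]
          exact norm_sub_norm_le _ _
        have h3 : g y = 0 := hR y (by linarith)
        rw [h3, hgx, dist_self])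
    rw [hgx, dist_zero_right] at h
    exact h

theorem step1 (Q : E3 → ℝ) (hQm : Measurable Q) (hQ0 : ∀ x, 0 ≤ Q x) (M : ℝ)
    (hM : ∀ x, Q x ≤ M) (lam : ℝ) (hF : FormLow Q lam) (v : E3 → ℝ) (hv : ContDiff ℝ 1 v)
    (hc : HasCompactSupport v) :
    lam * (∫ x, v x ^ 2) ≤ ∫ x, (dot3 v v x + Q x * v x ^ 2) := by
  have hpos : ∀ n : ℕ, (0 : ℝ) < 1 / ((n : ℝ) + 1) := fun n => by positivity
  let φ : ℕ → ContDiffBump (0 : E3) := fun n =>
    ⟨1 / ((n : ℝ) + 1) / 2, 1 / ((n : ℝ) + 1), half_pos (hpos n), half_lt_self (hpos n)⟩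
  have hrout : ∀ n, (φ n).rOut = 1 / ((n : ℝ) + 1) := fun n => rfl
  have hφ1 : ∀ n, (φ n).rOut ≤ 1 := by
    intro n
    rw [hrout, div_le_one (by positivity)]
    have : (0 : ℝ) ≤ n := n.cast_nonneg
    linarith
  have hφ0 : Tendsto (fun n => (φ n).rOut) atTop (𝓝 0) := by
    simp only [hrout]
    exact tendsto_one_div_add_atTop_nhds_zero_nat
  let vn : ℕ → E3 → ℝ := fun n => (φ n).normed volume ⋆[ContinuousLinearMap.lsmul ℝ ℝ, volume] v
  have hvloc : LocallyIntegrable v := hv.continuous.locallyIntegrable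
  have hsm : ∀ n, ContDiff ℝ ((⊤ : ℕ∞) : WithTop ℕ∞) (vn n) := fun n =>
    (φ n).hasCompactSupport_normed.contDiff_convolution_left _ (φ n).contDiff_normed hvloc
  have hcs : ∀ n, HasCompactSupport (vn n) := fun n =>
    HasCompactSupport.convolution _ (φ n).hasCompactSupport_normed hc
  have hdv : Continuous (fderiv ℝ v) := hv.continuous_fderiv one_ne_zero
  have hdc : HasCompactSupport (fderiv ℝ v) := hc.fderiv ℝ
  have hfd : ∀ n x, fderiv ℝ (vn n) x =
      ((φ n).normed volume ⋆[ContinuousLinearMap.lsmul ℝ ℝ, volume] (fderiv ℝ v)) x := by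
    intro n x
    have h := (hc.hasFDerivAt_convolution_right (ContinuousLinearMap.lsmul ℝ ℝ)
      (μ := volume) (((φ n).continuous_normed (μ := volume)).locallyIntegrable) hv x).fderiv
    refine h.trans ?_
    unfold convolution
    congr 1
  obtain ⟨R1, hR1, hR1'⟩ := zero_outside v hc
  obtain ⟨R2, hR2, hR2'⟩ := zero_outside (fderiv ℝ v) hdc
  obtain ⟨B1, hB1⟩ := hv.continuous.bounded_above_of_compact_support hc
  obtain ⟨B2, hB2⟩ := hdv.bounded_above_of_compact_support hdc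
  have hB1' : 0 ≤ B1 := (norm_nonneg _).trans (hB1 0)
  have hB2' : 0 ≤ B2 := (norm_nonneg _).trans (hB2 0)
  let G : E3 → ℝ := fun x => (closedBall (0 : E3) (R1 + 1)).indicator (fun _ => (3 * B1) ^ 2) x +
    (closedBall (0 : E3) (R2 + 1)).indicator (fun _ => 3 * (3 * B2) ^ 2) x
  have hGI : Integrable G := by
    apply Integrable.add
    · rw [integrable_indicator_iff measurableSet_closedBall]
      exact continuousOn_const.integrableOn_compact (isCompact_closedBall _ _)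
    · rw [integrable_indicator_iff measurableSet_closedBall]
      exact continuousOn_const.integrableOn_compact (isCompact_closedBall _ _)
  have i0 : ∀ (s : Set E3) (c : ℝ), 0 ≤ c → ∀ x, 0 ≤ s.indicator (fun _ => c) x :=
    fun s c hc x => indicator_nonneg (fun _ _ => hc) x
  have isq : ∀ (s : Set E3) (c y : ℝ) (x : E3), 0 ≤ y → y ≤ s.indicator (fun _ => c) x →
      y ^ 2 ≤ s.indicator (fun _ => c ^ 2) x := by
    intro s c y x hy h
    by_cases hx : x ∈ s
    · rw [indicator_of_mem hx] at h ⊢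
      exact pow_le_pow_left₀ hy h 2
    · rw [indicator_of_notMem hx] at h ⊢
      have : y = 0 := le_antisymm h hy
      rw [this]
      norm_num
  apply limit Q hQm hQ0 M hM lam vn v (fun n => (hsm n).of_le (by exact_mod_cast le_top)) _ G hGI
  · intro n x
    have h1 := mol v hv.continuous (φ n) (hφ1 n) B1 R1 hB1 hR1' x
    have h2 := isq _ _ _ _ (norm_nonneg _) h1
    rw [Real.norm_eq_abs, sq_abs] at h2
    have h3 := i0 (closedBall (0 : E3) (R2 + 1)) (3 * (3 * B2) ^ 2) (by positivity) x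
    calc vn n x ^ 2 ≤ (closedBall (0 : E3) (R1 + 1)).indicator (fun _ => (3 * B1) ^ 2) x := h2
      _ ≤ G x := le_add_of_nonneg_right h3
  · intro n x
    have h1 := mol (fderiv ℝ v) hdv (φ n) (hφ1 n) B2 R2 hB2 hR2' x
    rw [← hfd] at h1
    have h2 := isq _ _ _ _ (norm_nonneg _) h1
    have h3 := i0 (closedBall (0 : E3) (R1 + 1)) ((3 * B1) ^ 2) (by positivity) x
    have h4 : 3 * (closedBall (0 : E3) (R2 + 1)).indicator (fun _ => (3 * B2) ^ 2) x =
        (closedBall (0 : E3) (R2 + 1)).indicator (fun _ => 3 * (3 * B2) ^ 2) x := by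
      by_cases hx : x ∈ closedBall (0 : E3) (R2 + 1)
      · rw [indicator_of_mem hx, indicator_of_mem hx]
      · rw [indicator_of_notMem hx, indicator_of_notMem hx, mul_zero]
    calc dot3 (vn n) (vn n) x ≤ 3 * ‖fderiv ℝ (vn n) x‖ ^ 2 := dot3_le _ _
      _ ≤ 3 * (closedBall (0 : E3) (R2 + 1)).indicator (fun _ => (3 * B2) ^ 2) x := by linarith
      _ = (closedBall (0 : E3) (R2 + 1)).indicator (fun _ => 3 * (3 * B2) ^ 2) x := h4
      _ ≤ G x := le_add_of_nonneg_left h3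
  · intro x
    exact ContDiffBump.convolution_tendsto_right_of_continuous hφ0 hv.continuous x
  · intro x k
    simp only [hfd]
    have h := ContDiffBump.convolution_tendsto_right_of_continuous (μ := volume) hφ0 hdv x
    exact ((ContinuousLinearMap.apply ℝ ℝ (EuclideanSpace.single k (1 : ℝ) : E3)).continuous.tendsto
      _).comp h
  · intro n
    have h := hF (fun y => (vn n y : ℂ)) (Complex.ofRealCLM.contDiff.comp (hsm n))
      ((hcs n).comp_left (g := fun r : ℝ => (r : ℂ)) Complex.ofReal_zero)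
    have e1 : ∀ x, ‖((vn n x : ℝ) : ℂ)‖ ^ 2 = vn n x ^ 2 := by
      intro x
      rw [Complex.norm_real, Real.norm_eq_abs, sq_abs]
    have e2 : ∀ x, g3 (fun y => (vn n y : ℂ)) x = dot3 (vn n) (vn n) x := fun x =>
      g3_ofReal _ ((hsm n).differentiable (by simp)) x
    simp only [e1, e2] at h
    exact h

theorem form : S_FORM := by
  rintro Q hQm hQ0 ⟨M, hM⟩ lam hF v hv hN hI
  let χ : ContDiffBump (0 : E3) := ⟨1, 2, one_pos, one_lt_two⟩
  have hχ : ContDiff ℝ 1 χ := χ.contDiff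
  have hχc : HasCompactSupport χ := χ.hasCompactSupport
  obtain ⟨B, hB⟩ := (hχ.continuous_fderiv one_ne_zero).bounded_above_of_compact_support
    (hχc.fderiv ℝ)
  have hB0 : 0 ≤ B := (norm_nonneg _).trans (hB 0)
  have hr : ∀ n : ℕ, (0 : ℝ) < ((n : ℝ) + 1)⁻¹ := fun n => by positivity
  have hr1 : ∀ n : ℕ, ((n : ℝ) + 1)⁻¹ ≤ 1 := fun n => by
    apply inv_le_one_of_one_le₀
    have : (0 : ℝ) ≤ n := n.cast_nonneg
    linarith
  have hr0 : Tendsto (fun n : ℕ => ((n : ℝ) + 1)⁻¹) atTop (𝓝 0) := by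
    simpa only [one_div] using tendsto_one_div_add_atTop_nhds_zero_nat (𝕜 := ℝ)
  let χn : ℕ → E3 → ℝ := fun n x => χ (((n : ℝ) + 1)⁻¹ • x)
  have hχn : ∀ n, ContDiff ℝ 1 (χn n) := fun n => hχ.comp (contDiff_const_smul _)
  have hχnd : ∀ n x, HasFDerivAt (χn n)
      ((((n : ℝ) + 1)⁻¹) • fderiv ℝ χ (((n : ℝ) + 1)⁻¹ • x)) x := by
    intro n x
    have h1 : HasFDerivAt (fun y : E3 => ((n : ℝ) + 1)⁻¹ • y)
        ((((n : ℝ) + 1)⁻¹) • ContinuousLinearMap.id ℝ E3) x :=
      ((((n : ℝ) + 1)⁻¹) • ContinuousLinearMap.id ℝ E3).hasFDerivAt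
    have h2 := ((hχ.differentiable one_ne_zero) (((n : ℝ) + 1)⁻¹ • x)).hasFDerivAt.comp x h1
    have e : ((((n : ℝ) + 1)⁻¹) • fderiv ℝ χ (((n : ℝ) + 1)⁻¹ • x)) =
        (fderiv ℝ χ (((n : ℝ) + 1)⁻¹ • x)).comp
          ((((n : ℝ) + 1)⁻¹) • ContinuousLinearMap.id ℝ E3) := by
      refine ContinuousLinearMap.ext fun y => ?_
      show ((n : ℝ) + 1)⁻¹ • (fderiv ℝ χ (((n : ℝ) + 1)⁻¹ • x)) y =
        (fderiv ℝ χ (((n : ℝ) + 1)⁻¹ • x)) ((((n : ℝ) + 1)⁻¹) • y)
      rw [map_smul]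
    rw [e]
    exact h2
  have hχnb : ∀ n x, ‖fderiv ℝ (χn n) x‖ ≤ ((n : ℝ) + 1)⁻¹ * B := by
    intro n x
    rw [(hχnd n x).fderiv, norm_smul, Real.norm_eq_abs, abs_of_pos (hr n)]
    exact mul_le_mul_of_nonneg_left (hB _) (hr n).le
  have hχ01 : ∀ n x, 0 ≤ χn n x ∧ χn n x ≤ 1 := fun n x => ⟨χ.nonneg, χ.le_one⟩
  let vn : ℕ → E3 → ℝ := fun n x => χn n x * v x
  have hvn : ∀ n, ContDiff ℝ 1 (vn n) := fun n => (hχn n).mul hv
  have hvd : ∀ x, HasFDerivAt v (fderiv ℝ v x) x := fun x =>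
    (hv.differentiable one_ne_zero x).hasFDerivAt
  have hfd : ∀ n x e, fderiv ℝ (vn n) x e = χn n x * fderiv ℝ v x e + v x * fderiv ℝ (χn n) x e := by
    intro n x e
    have h : HasFDerivAt (vn n) (χn n x • fderiv ℝ v x + v x • fderiv ℝ (χn n) x) x :=
      ((hχn n).differentiable one_ne_zero x).hasFDerivAt.mul (hvd x)
    rw [h.fderiv]
    simp
  have hcs : ∀ n, HasCompactSupport (vn n) := by
    intro n
    apply HasCompactSupport.mul_right
    exact hχc.comp_homeomorph (Homeomorph.smulOfNeZero (((n : ℝ) + 1)⁻¹) (hr n).ne')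
  let G : E3 → ℝ := fun x => v x ^ 2 + (2 * dot3 v v x + 6 * B ^ 2 * v x ^ 2)
  have hGI : Integrable G := hN.sq.add ((hI.const_mul 2).add (hN.sq.const_mul _))
  have hG1 : ∀ x, 0 ≤ 2 * dot3 v v x + 6 * B ^ 2 * v x ^ 2 := by
    intro x
    have := dot3_nonneg v x
    positivity
  apply limit Q hQm hQ0 M hM lam vn v hvn
    (fun n => step1 Q hQm hQ0 M hM lam hF (vn n) (hvn n) (hcs n)) G hGI
  · intro n x
    have h1 : vn n x ^ 2 ≤ v x ^ 2 := by
      show (χn n x * v x) ^ 2 ≤ v x ^ 2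
      rw [mul_pow]
      have h2 : χn n x ^ 2 ≤ 1 := pow_le_one₀ (hχ01 n x).1 (hχ01 n x).2
      nlinarith [sq_nonneg (v x)]
    linarith [hG1 x, h1, show G x = v x ^ 2 + (2 * dot3 v v x + 6 * B ^ 2 * v x ^ 2) from rfl]
  · intro n x
    have h1 : dot3 (vn n) (vn n) x ≤ 2 * dot3 v v x + 6 * B ^ 2 * v x ^ 2 := by
      have h2 : ∀ k : Fin 3, fderiv ℝ (vn n) x (EuclideanSpace.single k (1 : ℝ)) *
          fderiv ℝ (vn n) x (EuclideanSpace.single k (1 : ℝ)) ≤
          2 * (fderiv ℝ v x (EuclideanSpace.single k (1 : ℝ)) *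
            fderiv ℝ v x (EuclideanSpace.single k (1 : ℝ))) + 2 * B ^ 2 * v x ^ 2 := by
        intro k
        rw [hfd]
        set p := fderiv ℝ v x (EuclideanSpace.single k (1 : ℝ))
        have h3 : |fderiv ℝ (χn n) x (EuclideanSpace.single k (1 : ℝ))| ≤ B := by
          have h4 := (fderiv ℝ (χn n) x).le_opNorm (EuclideanSpace.single k (1 : ℝ))
          rw [PiLp.norm_single, norm_one, mul_one, Real.norm_eq_abs] at h4
          have h5 : ((n : ℝ) + 1)⁻¹ * B ≤ 1 * B := mul_le_mul_of_nonneg_right (hr1 n) hB0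
          linarith [hχnb n x]
        set d := fderiv ℝ (χn n) x (EuclideanSpace.single k (1 : ℝ))
        have h5 : d ^ 2 ≤ B ^ 2 := sq_le_sq' (abs_le.1 h3).1 (abs_le.1 h3).2
        have h6 : χn n x ^ 2 ≤ 1 := pow_le_one₀ (hχ01 n x).1 (hχ01 n x).2
        have h7 : (χn n x * p) ^ 2 ≤ p ^ 2 := by
          rw [mul_pow]
          nlinarith [sq_nonneg p]
        have h8 : (v x * d) ^ 2 ≤ B ^ 2 * v x ^ 2 := by
          rw [mul_pow]
          nlinarith [sq_nonneg (v x)]
        nlinarith [sq_nonneg (χn n x * p - v x * d)]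
      calc dot3 (vn n) (vn n) x ≤ ∑ k : Fin 3, (2 * (fderiv ℝ v x (EuclideanSpace.single k (1 : ℝ)) *
            fderiv ℝ v x (EuclideanSpace.single k (1 : ℝ))) + 2 * B ^ 2 * v x ^ 2) :=
              Finset.sum_le_sum fun k _ => h2 k
        _ = 2 * dot3 v v x + 6 * B ^ 2 * v x ^ 2 := by
            rw [Finset.sum_add_distrib, ← Finset.mul_sum]
            unfold dot3
            simp only [Finset.sum_const, Finset.card_univ, Fintype.card_fin, nsmul_eq_mul]
            push_cast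
            ring
    have h2 : G x = v x ^ 2 + (2 * dot3 v v x + 6 * B ^ 2 * v x ^ 2) := rfl
    linarith [sq_nonneg (v x)]
  · intro x
    have h1 : Tendsto (fun n => χn n x) atTop (𝓝 1) := by
      have h2 : Tendsto (fun n : ℕ => ((n : ℝ) + 1)⁻¹ • x) atTop (𝓝 ((0 : ℝ) • x)) :=
        hr0.smul_const x
      rw [zero_smul] at h2
      have h3 := (hχ.continuous.tendsto (0 : E3)).comp h2
      have h4 : χ (0 : E3) = 1 := χ.one_of_mem_closedBall (by simp [χ])
      rw [h4] at h3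
      exact h3
    have h5 := h1.mul_const (v x)
    rw [one_mul] at h5
    exact h5
  · intro x k
    have h1 : Tendsto (fun n => χn n x) atTop (𝓝 1) := by
      have h2 : Tendsto (fun n : ℕ => ((n : ℝ) + 1)⁻¹ • x) atTop (𝓝 ((0 : ℝ) • x)) :=
        hr0.smul_const x
      rw [zero_smul] at h2
      have h3 := (hχ.continuous.tendsto (0 : E3)).comp h2
      have h4 : χ (0 : E3) = 1 := χ.one_of_mem_closedBall (by simp [χ])
      rw [h4] at h3
      exact h3
    have h6 : Tendsto (fun n => fderiv ℝ (χn n) x (EuclideanSpace.single k (1 : ℝ))) atTop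
        (𝓝 0) := by
      apply squeeze_zero_norm (a := fun n : ℕ => ((n : ℝ) + 1)⁻¹ * B)
      · intro n
        have h4 := (fderiv ℝ (χn n) x).le_opNorm (EuclideanSpace.single k (1 : ℝ))
        rw [PiLp.norm_single, norm_one, mul_one] at h4
        exact h4.trans (hχnb n x)
      · have := hr0.mul_const B
        rw [zero_mul] at this
        exact this
    simp only [hfd]
    have h7 := (h1.mul_const (fderiv ℝ v x (EuclideanSpace.single k (1 : ℝ)))).add
      (h6.const_mul (v x))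
    rw [one_mul, mul_zero, add_zero] at h7
    exact h7

end Pool.Agent.W557.TWB
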